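import Pool.Agent.H54.WB.TargetsC

/-! # TDN: tree-depth and NLC-width -/

set_option autoImplicit false

namespace Pool.Agent.H79.WB

open Pool.Agent.H69.Sp Pool.Agent.H69.VR Pool.Agent.H8.VR Pool.Agent.H8.MC Pool.Agent.H8.JS
open Pool.Agent.H54.WB

theorem tdn_gen {N Q A : Type} {k m : ℕ} (e : Q ≃ Fin k) {G : Gram N Q} {P : ℕ → A → Prop}
    {R R' : ℕ → A → A → Prop} (hRR : ∀ i < m, ∀ u v, R' i u v ↔ R i u v)
    {X : Set A} {c : A → Q} {s : N} (h : G.Gen m P R s X c) :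
    NLC k m R' X (fun a => e (c a)) := by
  induction h with
  | pt x hx a c hc hP hR => exact NLC.pt a _
  | op o ho X Y c c₁ c₂ h₁ h₂ hd hD hR hX hY ih1 ih2 =>
    refine NLC.op X Y _ _ _ ih1 ih2 hd (fun i p q => o.l i (e.symm p) (e.symm q))
      (fun i p q => o.r i (e.symm p) (e.symm q)) (fun p => e (o.f (e.symm p)))
      (fun p => e (o.g (e.symm p))) (fun a ha b hb i hi => ?_) (fun a ha => ?_) (fun b hb => ?_)
    · rw [hRR i hi, hRR i hi, Equiv.symm_apply_apply, Equiv.symm_apply_apply]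
      exact hR a ha b hb i hi
    · rw [Equiv.symm_apply_apply, hX a ha]
    · rw [Equiv.symm_apply_apply, hY b hb]

theorem tdn_mono {A : Type} {k l m : ℕ} (hkl : k ≤ l) {R : ℕ → A → A → Prop} {X : Set A}
    {c : A → Fin k} (h : NLC k m R X c) : NLC l m R X (fun a => Fin.castLE hkl (c a)) := by
  have inj := Fin.castLE_injective hkl
  induction h with
  | pt a c => exact NLC.pt a _
  | op X Y c c₁ c₂ h₁ h₂ hd l' r' f g hR hX hY ih1 ih2 =>
    refine NLC.op X Y _ _ _ ih1 ih2 hd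
      (fun i p q => ∃ p0 q0, Fin.castLE hkl p0 = p ∧ Fin.castLE hkl q0 = q ∧ l' i p0 q0)
      (fun i p q => ∃ p0 q0, Fin.castLE hkl p0 = p ∧ Fin.castLE hkl q0 = q ∧ r' i p0 q0)
      (fun p => if hp : p.val < k then Fin.castLE hkl (f ⟨p.val, hp⟩) else p)
      (fun p => if hp : p.val < k then Fin.castLE hkl (g ⟨p.val, hp⟩) else p)
      (fun a ha b hb i hi => ?_) (fun a ha => ?_) (fun b hb => ?_)
    · obtain ⟨h1, h2⟩ := hR a ha b hb i hi
      rw [h1, h2]
      constructor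
      · constructor
        · intro h3
          exact ⟨_, _, rfl, rfl, h3⟩
        · rintro ⟨p0, q0, e1, e2, h3⟩
          rwa [inj e1, inj e2] at h3
      · constructor
        · intro h3
          exact ⟨_, _, rfl, rfl, h3⟩
        · rintro ⟨p0, q0, e1, e2, h3⟩
          rwa [inj e1, inj e2] at h3
    · have h1 : (Fin.castLE hkl (c₁ a)).val < k := (c₁ a).2
      simp only [h1, dif_pos]
      rw [hX a ha]
      rfl
    · have h1 : (Fin.castLE hkl (c₂ b)).val < k := (c₂ b).2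
      simp only [h1, dif_pos]
      rw [hY b hb]
      rfl

theorem pf_TDN (hNFE : T_NFE) (hGEX : T_GEX) (hWG1 : T_WG1) : T_TDN := by
  refine ⟨?_, ?_⟩
  · intro V _ _ G k hk
    obtain ⟨anc, po, hA⟩ := (hNFE .depth V G k).1 hk
    obtain ⟨H, hH⟩ := hGEX .depth k 1
    obtain ⟨c, hc⟩ := hWG1 .depth k 1 H one_pos hH V G (fun _ _ => False) anc po hA
    have e : Co k ≃ Fin (2 ^ k) := Fintype.equivFinOfCardEq (by simp)
    exact ⟨_, tdn_gen (R' := fun _ => G.Adj) e (fun i hi u v => by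
      have : i = 0 := by omega
      simp [this]) hc⟩
  · rintro V G k l hkl ⟨c, hc⟩
    exact ⟨_, tdn_mono hkl hc⟩

end Pool.Agent.H79.WB
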